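import Mathlib

set_option autoImplicit false
set_option maxSynthPendingDepth 3

namespace Pool.Agent.Results.MP_8ea6c6_co.NotGreedy

/-- least number of summands in a representation of `k` by elements of `S` -/
noncomputable def minCost (S : Finset ℕ) (k : ℕ) : ℕ :=
  sInf {c | ∃ a : ℕ → ℕ, ∑ s ∈ S, a s * s = k ∧ ∑ s ∈ S, a s = c}

/-- cost of the greedy procedure run through a list of generators -/
noncomputable def greedyAux (S : Finset ℕ) : List ℕ → ℕ → ℕ
  | [], _ => 0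
  | s :: l, k =>
    sSup {q | q * s ≤ k ∧ k - q * s ∈ AddSubmonoid.closure (S : Set ℕ)} +
      greedyAux S l
        (k - sSup {q | q * s ≤ k ∧ k - q * s ∈ AddSubmonoid.closure (S : Set ℕ)} * s)

/-- cost of the greedy representation, generators taken in decreasing order -/
noncomputable def greedyCost (S : Finset ℕ) (k : ℕ) : ℕ :=
  greedyAux S (S.sort (· ≥ ·)) k

/-- the greedy representation is optimal for every element of the semigroup -/
def IsGreedy (S : Finset ℕ) : Prop :=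
  ∀ k ∈ AddSubmonoid.closure (S : Set ℕ), greedyCost S k = minCost S k

lemma mem_iff (S : Finset ℕ) (k : ℕ) :
    k ∈ AddSubmonoid.closure (S : Set ℕ) ↔ ∃ a : ℕ → ℕ, ∑ s ∈ S, a s * s = k := by
  rw [AddSubmonoid.mem_closure_finset]
  constructor
  · rintro ⟨f, -, h⟩; exact ⟨f, by simpa using h⟩
  · rintro ⟨f, h⟩
    refine ⟨fun s => if s ∈ S then f s else 0, fun s hs => ?_, ?_⟩
    · by_contra h'
      exact hs (if_neg h')
    · rw [← h]
      exact Finset.sum_congr rfl fun s hs => by simp [hs]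

lemma ex3 (P : ℕ → ℕ → ℕ → Prop) :
    (∃ a : ℕ → ℕ, P (a 4) (a 6) (a 9)) ↔ ∃ x y z, P x y z :=
  ⟨fun ⟨_, h⟩ => ⟨_, _, _, h⟩, fun ⟨x, y, z, h⟩ =>
    ⟨fun s => if s = 4 then x else if s = 6 then y else z, by simpa using h⟩⟩

lemma mem3 (k : ℕ) : k ∈ AddSubmonoid.closure (({4, 6, 9} : Finset ℕ) : Set ℕ) ↔
    k = 0 ∨ k = 4 ∨ k = 6 ∨ k = 8 ∨ k = 9 ∨ k = 10 ∨ 12 ≤ k := by
  rw [mem_iff]
  simp only [Finset.sum_insert (show 4 ∉ ({6, 9} : Finset ℕ) by decide),
    Finset.sum_insert (show 6 ∉ ({9} : Finset ℕ) by decide), Finset.sum_singleton]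
  rw [ex3 (fun x y z => x * 4 + (y * 6 + z * 9) = k)]
  constructor
  · rintro ⟨x, y, z, h⟩
    rcases x with _ | _ | x <;> rcases y with _ | y <;> rcases z with _ | z <;> omega
  · intro h
    have : k % 4 = 0 ∨ k % 4 = 1 ∨ k % 4 = 2 ∨ k % 4 = 3 := by omega
    rcases this with h | h | h | h
    · exact ⟨k / 4, 0, 0, by omega⟩
    · exact ⟨(k - 9) / 4, 0, 1, by omega⟩
    · exact ⟨(k - 6) / 4, 1, 0, by omega⟩
    · exact ⟨(k - 15) / 4, 1, 1, by omega⟩

lemma mem4 (k : ℕ) : k ∈ AddSubmonoid.closure ((insert 11 {4, 6, 9} : Finset ℕ) : Set ℕ) ↔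
    k = 0 ∨ k = 4 ∨ k = 6 ∨ 8 ≤ k := by
  constructor
  · rw [mem_iff]
    simp only [Finset.sum_insert (show 11 ∉ ({4, 6, 9} : Finset ℕ) by decide),
      Finset.sum_insert (show 4 ∉ ({6, 9} : Finset ℕ) by decide),
      Finset.sum_insert (show 6 ∉ ({9} : Finset ℕ) by decide), Finset.sum_singleton]
    rintro ⟨a, h⟩
    generalize a 11 = w at h
    generalize a 4 = x at h
    generalize a 6 = y at h
    generalize a 9 = z at h
    rcases x with _ | _ | x <;> rcases y with _ | y <;> rcases z with _ | z <;> omega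
  · intro h
    by_cases h1 : k = 11
    · exact AddSubmonoid.subset_closure (by simp [h1])
    · exact AddSubmonoid.closure_mono (by simp) ((mem3 k).mpr (by omega))

lemma sup_eq (A : Set ℕ) (q : ℕ) (h1 : q ∈ A) (h2 : ∀ r ∈ A, r ≤ q) : sSup A = q :=
  IsGreatest.csSup_eq ⟨h1, h2⟩

lemma step (S : Finset ℕ) (s : ℕ) (l : List ℕ) (k q : ℕ)
    (h1 : q * s ≤ k ∧ k - q * s ∈ AddSubmonoid.closure (S : Set ℕ))
    (h2 : ∀ r, r * s ≤ k ∧ k - r * s ∈ AddSubmonoid.closure (S : Set ℕ) → r ≤ q) :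
    greedyAux S (s :: l) k = q + greedyAux S l (k - q * s) := by
  rw [greedyAux, sup_eq {q | q * s ≤ k ∧ k - q * s ∈ AddSubmonoid.closure (S : Set ℕ)} q h1 h2]

lemma greedy3 : IsGreedy {4, 6, 9} := by
  intro k hk
  have hs : ({4, 6, 9} : Finset ℕ).sort (· ≥ ·) = [9, 6, 4] := by
    rw [show ({4, 6, 9} : Finset ℕ) = [9, 6, 4].toFinset by decide,
      List.toFinset_sort _ (by decide)]
    decide
  rw [mem3] at hk
  have key : ∀ x y z, 4 * x + 6 * y + 9 * z = k →
      (∀ r, r * 9 ≤ k ∧ k - r * 9 ∈ AddSubmonoid.closure (({4, 6, 9} : Finset ℕ) : Set ℕ) →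
        r ≤ z) →
      (∀ r, r * 6 ≤ k - z * 9 ∧ k - z * 9 - r * 6 ∈
        AddSubmonoid.closure (({4, 6, 9} : Finset ℕ) : Set ℕ) → r ≤ y) →
      (∀ x' y' z', 4 * x' + 6 * y' + 9 * z' = k → x + y + z ≤ x' + y' + z') →
      greedyCost {4, 6, 9} k = minCost {4, 6, 9} k := by
    intro x y z h0 h1 h2 h3
    rw [greedyCost, hs, step _ 9 _ k z ⟨by omega, by
        rw [mem_iff]; exact (ex3 (fun a b c => a * 4 + (b * 6 + c * 9) = k - z * 9)).mpr
          ⟨x, y, 0, by omega⟩⟩ h1,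
      step _ 6 _ _ y ⟨by omega, by
        rw [mem_iff]; exact (ex3 (fun a b c => a * 4 + (b * 6 + c * 9) = k - z * 9 - y * 6)).mpr
          ⟨x, 0, 0, by omega⟩⟩ h2,
      step _ 4 _ _ x ⟨by omega, by rw [mem3]; omega⟩ (fun r h => by omega), greedyAux]
    symm
    refine IsLeast.csInf_eq ⟨?_, ?_⟩
    · exact (ex3 (fun a b c => a * 4 + (b * 6 + c * 9) = k ∧
        a + (b + c) = z + (y + (x + 0)))).mpr ⟨x, y, z, by omega, by omega⟩
    · rintro c ⟨a, a1, a2⟩
      have b1 : a 4 * 4 + (a 6 * 6 + a 9 * 9) = k := a1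
      have b2 : a 4 + (a 6 + a 9) = c := a2
      have := h3 (a 4) (a 6) (a 9) (by omega)
      omega
  simp only [mem3] at key
  have : k % 9 = 0 ∨ k % 9 = 1 ∨ k % 9 = 2 ∨ k % 9 = 3 ∨ k % 9 = 4 ∨ k % 9 = 5 ∨ k % 9 = 6 ∨
    k % 9 = 7 ∨ k % 9 = 8 := by omega
  rcases this with h | h | h | h | h | h | h | h | h
  · exact key 0 0 (k / 9) (by omega) (by omega) (by omega) (by omega)
  · exact key 1 1 ((k - 10) / 9) (by omega) (by omega) (by omega) (by omega)
  · exact key 2 2 ((k - 20) / 9) (by omega) (by omega) (by omega) (by omega)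
  · exact key 0 2 ((k - 12) / 9) (by omega) (by omega) (by omega) (by omega)
  · exact key 1 0 ((k - 4) / 9) (by omega) (by omega) (by omega) (by omega)
  · exact key 2 1 ((k - 14) / 9) (by omega) (by omega) (by omega) (by omega)
  · exact key 0 1 ((k - 6) / 9) (by omega) (by omega) (by omega) (by omega)
  · exact key 1 2 ((k - 16) / 9) (by omega) (by omega) (by omega) (by omega)
  · exact key 2 0 ((k - 8) / 9) (by omega) (by omega) (by omega) (by omega)

lemma not_greedy4 : ¬ IsGreedy (insert 11 {4, 6, 9}) := by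
  intro h
  have hs : (insert 11 {4, 6, 9} : Finset ℕ).sort (· ≥ ·) = [11, 9, 6, 4] := by
    rw [show (insert 11 {4, 6, 9} : Finset ℕ) = [11, 9, 6, 4].toFinset by decide,
      List.toFinset_sort _ (by decide)]
    decide
  have h1 := h 27 ((mem4 27).mpr (by omega))
  rw [greedyCost, hs, step _ 11 _ 27 1 (by rw [mem4]; omega) (by simp only [mem4]; omega),
    step _ 9 _ _ 0 (by rw [mem4]; omega) (by simp only [mem4]; omega),
    step _ 6 _ _ 2 (by rw [mem4]; omega) (by simp only [mem4]; omega),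
    step _ 4 _ _ 1 (by rw [mem4]; omega) (by simp only [mem4]; omega), greedyAux] at h1
  have h2 : minCost (insert 11 {4, 6, 9}) 27 ≤ 3 :=
    Nat.sInf_le ⟨fun s => if s = 9 then 3 else 0, by decide, by decide⟩
  omega

theorem result :
    ∃ (S : Finset ℕ) (F : ℕ), 0 ∉ S ∧ 1 ∉ S ∧ S.gcd id = 1 ∧
      (∀ s ∈ S, s ∉ AddSubmonoid.closure ((S.erase s : Finset ℕ) : Set ℕ)) ∧
      IsGreatest {k | k ∉ AddSubmonoid.closure (S : Set ℕ)} F ∧ (∀ s ∈ S, s < F) ∧
      IsGreedy S ∧ ¬ IsGreedy (insert F S) := by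
  refine ⟨{4, 6, 9}, 11, by decide, by decide, by decide, ?_, ⟨?_, ?_⟩, by decide, greedy3,
    not_greedy4⟩
  · intro s hs
    simp only [Finset.mem_insert, Finset.mem_singleton] at hs
    rw [mem_iff]
    rcases hs with rfl | rfl | rfl
    · rw [show ({4, 6, 9} : Finset ℕ).erase 4 = {6, 9} by decide]
      rintro ⟨a, h⟩
      have : a 6 * 6 + a 9 * 9 = 4 := h
      omega
    · rw [show ({4, 6, 9} : Finset ℕ).erase 6 = {4, 9} by decide]
      rintro ⟨a, h⟩
      have : a 4 * 4 + a 9 * 9 = 6 := h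
      omega
    · rw [show ({4, 6, 9} : Finset ℕ).erase 9 = {4, 6} by decide]
      rintro ⟨a, h⟩
      have : a 4 * 4 + a 6 * 6 = 9 := h
      omega
  · show 11 ∉ _
    rw [mem3]; omega
  · intro k hk
    have : k ∉ _ := hk
    rw [mem3] at this
    omega

end Pool.Agent.Results.MP_8ea6c6_co.NotGreedy
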